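import Pool.Agent.H.MP_21aec1_al.Hy.Final
import Pool.Agent.H.MP_21aec1_al.Hy.HypDef

set_option autoImplicit false

namespace Pool.Agent.Results.MP_21aec1_al.Hyperbolic

open Pool.Agent.H.MP_21aec1_al

/-- Every finitely generated QCF group is hyperbolic. -/
theorem result : ∀ (G : Type) [Group G] [Group.FG G], IsQCF G → IsHyperbolicGroup G := by
  intro G _ _ hQ
  refine ⟨Hy.exists_symm_gen G, fun S hS => ?_⟩
  obtain ⟨δ, hδ⟩ := Hy.slim_of_contextFree hS (by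
    have h := hQ (5 * 10 ^ 125) (5 * 10 ^ 125 + 8) S (by norm_num) (by positivity) hS
    have e1 : ((5 * 10 ^ 125 : ℤ) : ℝ) = (((5 * 10 ^ 125 : ℚ)) : ℝ) := by push_cast; ring
    have e2 : ((5 * 10 ^ 125 + 8 : ℤ) : ℝ) = 5 * 10 ^ 125 + 8 := by push_cast; ring
    rw [e1, e2]
    exact h)
  exact ⟨_, Hy.slimTriangles_of_slim hδ⟩

end Pool.Agent.Results.MP_21aec1_al.Hyperbolic
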